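import Pool.Agent.Q152.MaxIsoB

/-! The maximum number `M(n,q)` of maximal isotropic spaces of an alternating matrix space over
`𝔽_q` is `q^{n²/8 + O(n)}`. -/

namespace Pool.Agent.Results.MP_cd3971_co.Exponent

open Q152Iso

/-- For every finite field `K` with `q` elements and every `n`,
`q^{m(m+1)/2} ≤ M(n,q) ≤ 4 (n+1) q^{(n+1)²/8}` with `m = ⌊n/2⌋`; in particular
`log_q M(n,q) / n² → 1/8`. -/
theorem result (K : Type) [Field K] [Fintype K] :
    (∀ n : ℕ, Fintype.card K ^ ((n / 2 + 1).choose 2) ≤ M K n ∧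
      (M K n : ℝ) ≤ 4 * (n + 1) * (Fintype.card K : ℝ) ^ (((n : ℝ) + 1) ^ 2 / 8)) ∧
    Filter.Tendsto (fun n : ℕ => Real.logb (Fintype.card K) (M K n) / (n : ℝ) ^ 2)
      Filter.atTop (nhds (1 / 8)) := by
  have hbdd : ∀ n : ℕ, BddAbove (Set.range fun 𝒜 :
      {𝒜 : Submodule K (Matrix (Fin n) (Fin n) K) // ∀ A ∈ 𝒜, IsAlternating A} =>
        numMax 𝒜.1) := fun n => (Set.finite_range _).bddAbove
  have h1 : ∀ n : ℕ, Fintype.card K ^ ((n / 2 + 1).choose 2) ≤ M K n ∧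
      (M K n : ℝ) ≤ 4 * (n + 1) * (Fintype.card K : ℝ) ^ (((n : ℝ) + 1) ^ 2 / 8) := by
    intro n
    constructor
    · obtain ⟨𝒜, hA, h⟩ := lower (K := K) n
      exact h.trans (le_ciSup (hbdd n) ⟨𝒜, hA⟩)
    · have hne : Nonempty {𝒜 : Submodule K (Matrix (Fin n) (Fin n) K) //
          ∀ A ∈ 𝒜, IsAlternating A} := ⟨⟨⊥, fun A hA => by
            rw [Submodule.mem_bot] at hA
            subst hA
            intro v
            simp⟩⟩
      obtain ⟨𝒜, h⟩ := Nat.sSup_mem (Set.range_nonempty _) (hbdd n)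
      change numMax 𝒜.1 = M K n at h
      rw [← h]
      exact numMax_le 𝒜.2
  refine ⟨h1, ?_⟩
  have hq1 : (1 : ℝ) < (Fintype.card K : ℝ) := by exact_mod_cast Fintype.one_lt_card
  have hq0 : (0 : ℝ) < (Fintype.card K : ℝ) := by linarith
  set L := Real.log (Fintype.card K : ℝ) with hL
  have hL0 : 0 < L := Real.log_pos hq1
  have hMpos : ∀ n, (0 : ℝ) < (M K n : ℝ) := by
    intro n
    have h2 := (h1 n).1
    have h3 : 0 < Fintype.card K ^ ((n / 2 + 1).choose 2) := pow_pos Fintype.card_pos _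
    exact_mod_cast lt_of_lt_of_le h3 h2
  have hlow : ∀ n : ℕ, 1 ≤ n → 1 / 8 - (1 / (n : ℝ)) ^ 2 / 8 ≤
      Real.logb (Fintype.card K) (M K n) / (n : ℝ) ^ 2 := by
    intro n hn
    have hn0 : (0 : ℝ) < (n : ℝ) := by exact_mod_cast hn
    have h2 : (((n / 2 + 1).choose 2 : ℕ) : ℝ) ≤ Real.logb (Fintype.card K) (M K n) := by
      rw [Real.le_logb_iff_rpow_le hq1 (hMpos n), Real.rpow_natCast]
      exact_mod_cast (h1 n).1
    have h3 : ((n : ℝ) ^ 2 - 1) / 8 ≤ (((n / 2 + 1).choose 2 : ℕ) : ℝ) := by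
      rw [Nat.cast_choose_two]
      have h4 : (n : ℝ) ≤ 2 * ((n / 2 : ℕ) : ℝ) + 1 := by
        have : n ≤ 2 * (n / 2) + 1 := by omega
        exact_mod_cast this
      have h5 : (0 : ℝ) ≤ ((n / 2 : ℕ) : ℝ) := Nat.cast_nonneg _
      have h6 : (1 : ℝ) ≤ (n : ℝ) := by exact_mod_cast hn
      push_cast
      nlinarith
    rw [le_div_iff₀ (by positivity)]
    have h7 : (1 / 8 - (1 / (n : ℝ)) ^ 2 / 8) * (n : ℝ) ^ 2 = ((n : ℝ) ^ 2 - 1) / 8 := by
      field_simp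
    rw [h7]
    exact h3.trans h2
  have hupp : ∀ n : ℕ, 1 ≤ n → Real.logb (Fintype.card K) (M K n) / (n : ℝ) ^ 2 ≤
      4 * ((1 / (n : ℝ)) + (1 / (n : ℝ)) ^ 2) / L + (1 + 1 / (n : ℝ)) ^ 2 / 8 := by
    intro n hn
    have hn0 : (0 : ℝ) < (n : ℝ) := by exact_mod_cast hn
    have h2 : Real.logb (Fintype.card K) (M K n) ≤
        4 * ((n : ℝ) + 1) / L + ((n : ℝ) + 1) ^ 2 / 8 := by
      have h3 := Real.logb_le_logb_of_le hq1 (hMpos n) (h1 n).2
      rw [Real.logb_mul (by positivity) (by positivity), Real.logb_rpow hq0 hq1.ne'] at h3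
      have h4 : Real.logb (Fintype.card K) (4 * ((n : ℝ) + 1)) ≤ 4 * ((n : ℝ) + 1) / L := by
        unfold Real.logb
        apply div_le_div_of_nonneg_right _ hL0.le
        have := Real.log_le_sub_one_of_pos (show (0 : ℝ) < 4 * ((n : ℝ) + 1) by positivity)
        linarith
      linarith
    rw [div_le_iff₀ (by positivity)]
    have h7 : (4 * ((1 / (n : ℝ)) + (1 / (n : ℝ)) ^ 2) / L + (1 + 1 / (n : ℝ)) ^ 2 / 8) *
        (n : ℝ) ^ 2 = 4 * ((n : ℝ) + 1) / L + ((n : ℝ) + 1) ^ 2 / 8 := by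
      field_simp
    rw [h7]
    exact h2
  have hu : Filter.Tendsto (fun n : ℕ => 1 / (n : ℝ)) Filter.atTop (nhds 0) :=
    tendsto_one_div_atTop_nhds_zero_nat
  have hlim1 : Filter.Tendsto (fun n : ℕ => 1 / 8 - (1 / (n : ℝ)) ^ 2 / 8) Filter.atTop
      (nhds (1 / 8)) := by
    have := (((hu.pow 2).div_const 8).const_sub (1 / 8))
    simpa using this
  have hlim2 : Filter.Tendsto (fun n : ℕ =>
      4 * ((1 / (n : ℝ)) + (1 / (n : ℝ)) ^ 2) / L + (1 + 1 / (n : ℝ)) ^ 2 / 8) Filter.atTop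
      (nhds (1 / 8)) := by
    have := (((hu.add (hu.pow 2)).const_mul 4).div_const L).add
      (((hu.const_add 1).pow 2).div_const 8)
    simpa using this
  refine tendsto_of_tendsto_of_tendsto_of_le_of_le' hlim1 hlim2 ?_ ?_
  · filter_upwards [Filter.eventually_ge_atTop 1] with n hn using hlow n hn
  · filter_upwards [Filter.eventually_ge_atTop 1] with n hn using hupp n hn

end Pool.Agent.Results.MP_cd3971_co.Exponent
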